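import Pool.Agent.W510.CG.Stm

/-!
# Project CG: standard positions and the four point condition
-/

set_option autoImplicit false

namespace Pool.Agent.W490.CGStd

open Pool.Agent.W510.CG

section

variable {L : Type} [AddCommGroup L] [LinearOrder L] [IsOrderedAddMonoid L]

theorem br_o (l : L) : br ((0 : L →₀ ℤ), l) (o : Pt L) = some 0 := by
  unfold o
  rw [br_some_of (fun μ _ => rfl)]
  rfl

theorem br_δ (l : L) : br ((0 : L →₀ ℤ), l) (δ l) = some 1 := by
  unfold δ
  rw [br_some_of (fun μ hμ => by simp [ne_of_lt hμ])]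
  simp

theorem br_δ0 {l : L} (hl : 0 < l) : br ((0 : L →₀ ℤ), l) (δ 0) = some 0 := by
  unfold δ
  rw [br_some_of (fun μ hμ => by simp [ne_of_lt (hl.trans hμ)])]
  simp [ne_of_lt hl]

/-- moving three points -/
theorem place (h2 : S_HTF) (h1 : S_TREE) (γ : (L →₀ ℤ) × L) (x1 x2 x3 y1 y2 y3 : Pt L)
    (e12 : br γ x1 ≠ br γ x2) (e13 : br γ x1 ≠ br γ x3) (e23 : br γ x2 ≠ br γ x3)
    (f12 : br γ y1 ≠ br γ y2) (f13 : br γ y1 ≠ br γ y3) (f23 : br γ y2 ≠ br γ y3) :
    ∃ g ∈ Iso L, g x1 = y1 ∧ g x2 = y2 ∧ g x3 = y3 := by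
  classical
  obtain ⟨b0, hb0⟩ := Infinite.exists_notMem_finset
    ({br γ x1, br γ x2, br γ x3, br γ y1, br γ y2, br γ y3} : Finset (Option ℤ))
  simp only [Finset.mem_insert, Finset.mem_singleton, not_or] at hb0
  obtain ⟨b1, b2, b3, c1, c2, c3⟩ := hb0
  have n12 : x1 ≠ x2 := fun h => e12 (by rw [h])
  have n13 : x1 ≠ x3 := fun h => e13 (by rw [h])
  have n23 : x2 ≠ x3 := fun h => e23 (by rw [h])
  set f : Pt L → Pt L := fun x => if x = x1 then y1 else if x = x2 then y2 else y3 with hf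
  have f1 : f x1 = y1 := by simp [hf]
  have f2 : f x2 = y2 := by simp [hf, n12.symm]
  have f3 : f x3 = y3 := by simp [hf, n13.symm, n23.symm]
  have hS1 : ∀ x ∈ ({x1, x2, x3} : Set (Pt L)), br γ x ≠ b0 := by
    rintro x (rfl | rfl | rfl)
    · exact Ne.symm b1
    · exact Ne.symm b2
    · exact Ne.symm b3
  have hS2 : Set.InjOn (br γ) ({x1, x2, x3} : Set (Pt L)) := by
    rintro x (rfl | rfl | rfl) y (rfl | rfl | rfl) hxy <;>
      first | rfl | exact absurd hxy (by first | assumption | exact Ne.symm (by assumption))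
  have hS3 : ∀ x ∈ ({x1, x2, x3} : Set (Pt L)), br γ (f x) ≠ b0 := by
    rintro x (rfl | rfl | rfl)
    · rw [f1]; exact Ne.symm c1
    · rw [f2]; exact Ne.symm c2
    · rw [f3]; exact Ne.symm c3
  have hS4 : Set.InjOn (fun x => br γ (f x)) ({x1, x2, x3} : Set (Pt L)) := by
    rintro x (rfl | rfl | rfl) y (rfl | rfl | rfl) hxy <;>
      first
        | rfl
        | (simp only [f1, f2, f3] at hxy
           exact absurd hxy (by first | assumption | exact Ne.symm (by assumption)))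
  obtain ⟨g, hg, -, hgS⟩ := h2 (Pt L) _ _ br (Iso L) (h1 L) γ b0 {x1, x2, x3} f
    (Set.toFinite _) hS1 hS2 hS3 hS4
  exact ⟨g, hg, by rw [hgS x1 (by simp), f1], by rw [hgS x2 (by simp), f2],
      by rw [hgS x3 (by simp), f3]⟩

end

/-- **STD3** -/
theorem main (h1 : S_TREE) (h2 : S_HTF) : S_STD3 := by
  intro L _ _ _ a b c hab hac hbc
  obtain ⟨γ, k1, k2, k3⟩ := (h1 L).ctr a b c hab hac hbc
  obtain ⟨g1, hg1, hg1'⟩ := (h1 L).nt γ (γ0 L)
  have hl : (br (γ0 L) (o : Pt L)) = some 0 := br_o 0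
  have hl1 : (br (γ0 L) (δ (0 : L))) = some 1 := br_δ 0
  have hl2 : (br (γ0 L) (none : Pt L)) = none := br_none _
  obtain ⟨g2, hg2, e1, e2, e3⟩ := place h2 h1 (γ0 L) (g1 a) (g1 b) (g1 c) o (δ 0) none
    (fun h => k1 ((hg1' _ _).1 h)) (fun h => k2 ((hg1' _ _).1 h)) (fun h => k3 ((hg1' _ _).1 h))
    (by rw [hl, hl1]; simp) (by rw [hl, hl2]; simp) (by rw [hl1, hl2]; simp)
  exact ⟨g2 * g1, (Iso L).mul_mem hg2 hg1, e1, e2, e3⟩

section

variable {L : Type} [AddCommGroup L] [LinearOrder L] [IsOrderedAddMonoid L]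

theorem v_zero_sub_single : v ((0 : L →₀ ℤ) - Finsupp.single 0 1) = (0 : L) := by
  rw [zero_sub, v_neg, v_single _ _ one_ne_zero]

theorem Y1_std (x : L →₀ ℤ) : Y (o : Pt L) (δ 0) none (some x) = v x := by
  unfold Y o δ
  simp only [w_some, w_none_left, w_none_right, v_zero_sub_single]
  rw [zero_sub, v_neg]
  simp

theorem Y2_std (x : L →₀ ℤ) : Y (o : Pt L) none (δ 0) (some x) =
    v x - v (x - Finsupp.single 0 1) := by
  unfold Y o δ
  simp only [w_some, w_none_left, w_none_right]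
  rw [zero_sub, v_neg, ← v_neg (x - Finsupp.single 0 1), neg_sub]
  simp

end

/-- **STD4** -/
theorem main1 (h1 : S_TREE) (h2 : S_HTF) (h3 : S_STD3) : S_STD4 := by
  intro L _ _ _ a b c d hd hY
  classical
  obtain ⟨hab, hac, had, hbc, hbd, hcd⟩ := hd
  obtain ⟨g, hg, ga, gb, gc⟩ := h3 L a b c hab hac hbc
  have hYg := (mem_Iso.1 hg) a b c d ⟨hab, hac, had, hbc, hbd, hcd⟩
  rw [ga, gb, gc] at hYg
  rcases hx : g d with _ | x
  · exact absurd (g.injective (gc.trans hx.symm)) hcd
  rw [hx, Y1_std] at hYg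
  rw [← hYg] at hY ⊢
  have hx0 : x ≠ 0 := by
    rintro rfl
    exact had (g.injective (ga.trans hx.symm))
  obtain ⟨s1, s2⟩ := v_spec hx0
  set l := v x with hl
  have hbx : br ((0 : L →₀ ℤ), l) (some x : Pt L) = some (x l) :=
    br_some_of (fun μ hμ => by rw [s2 μ hμ]; rfl)
  have hno : br ((0 : L →₀ ℤ), l) (none : Pt L) = none := br_none _
  set f : Pt L → Pt L := fun y => if y = none then none else δ l with hf
  have f1 : f none = none := by simp [hf]
  have f2 : f (some x) = δ l := by simp [hf]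
  have hS1 : ∀ y ∈ ({none, some x} : Set (Pt L)), br ((0 : L →₀ ℤ), l) y ≠ some 0 := by
    rintro y (rfl | rfl)
    · rw [hno]; simp
    · rw [hbx]; simpa using s1
  have hS2 : Set.InjOn (br ((0 : L →₀ ℤ), l)) ({none, some x} : Set (Pt L)) := by
    rintro y (rfl | rfl) z (rfl | rfl) hyz
    · rfl
    · rw [hno, hbx] at hyz; simp at hyz
    · rw [hno, hbx] at hyz; simp at hyz
    · rfl
  have hS3 : ∀ y ∈ ({none, some x} : Set (Pt L)), br ((0 : L →₀ ℤ), l) (f y) ≠ some 0 := by
    rintro y (rfl | rfl)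
    · rw [f1, hno]; simp
    · rw [f2, br_δ]; simp
  have hS4 : Set.InjOn (fun y => br ((0 : L →₀ ℤ), l) (f y)) ({none, some x} : Set (Pt L)) := by
    rintro y (rfl | rfl) z (rfl | rfl) hyz
    · rfl
    · simp only [f1, f2, hno, br_δ] at hyz; simp at hyz
    · simp only [f1, f2, hno, br_δ] at hyz; simp at hyz
    · rfl
  obtain ⟨g2, hg2, hfix, hgS⟩ := h2 (Pt L) _ _ br (Iso L) (h1 L) ((0 : L →₀ ℤ), l) (some 0)
    {none, some x} f (Set.toFinite _) hS1 hS2 hS3 hS4
  refine ⟨g2 * g, (Iso L).mul_mem hg2 hg, ?_, ?_, ?_, ?_⟩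
  · rw [Equiv.Perm.mul_apply, ga]
    exact hfix _ (br_o l)
  · rw [Equiv.Perm.mul_apply, gb]
    exact hfix _ (br_δ0 hY)
  · rw [Equiv.Perm.mul_apply, gc, hgS none (by simp), f1]
  · rw [Equiv.Perm.mul_apply, hx, hgS (some x) (by simp), f2]

/-- **CL** -/
theorem main2 (h3 : S_STD3) : S_CL := by
  intro L _ _ _ a b c d hd
  classical
  obtain ⟨hab, hac, had, hbc, hbd, hcd⟩ := hd
  obtain ⟨g, hg, ga, gb, gc⟩ := h3 L a b c hab hac hbc
  have hY1 := (mem_Iso.1 hg) a b c d ⟨hab, hac, had, hbc, hbd, hcd⟩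
  have hY2 := (mem_Iso.1 hg) a c b d ⟨hac, hab, had, hbc.symm, hcd, hbd⟩
  rw [ga, gb, gc] at hY1 hY2
  rcases hx : g d with _ | x
  · exact absurd (g.injective (gc.trans hx.symm)) hcd
  rw [hx, Y1_std] at hY1
  rw [hx, Y2_std] at hY2
  have hx0 : x ≠ 0 := by
    rintro rfl
    exact had (g.injective (ga.trans hx.symm))
  have hx1 : x - Finsupp.single 0 1 ≠ 0 := by
    intro h
    rw [sub_eq_zero] at h
    subst h
    exact hbd (g.injective (gb.trans hx.symm))
  have hs : Finsupp.single (0 : L) (1 : ℤ) ≠ 0 := by simp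
  obtain ⟨r1, r2⟩ := v_spec hx0
  obtain ⟨s1, s2⟩ := v_spec hx1
  -- translations between the cross ratios and the sums
  have y1 : Y a b c d = (w a d + w b c) - (w a b + w c d) := by unfold Y; abel
  have y2 : Y a c b d = (w a d + w b c) - (w a c + w b d) := by
    unfold Y; rw [w_comm c b]; abel
  have y3 : Y a d b c = (w a c + w b d) - (w a d + w b c) := by
    unfold Y; rw [w_comm d b]; abel
  by_cases hn : ∃ μ : L, 0 < μ ∧ x μ ≠ 0
  · left
    obtain ⟨μ, hμ, hxμ⟩ := hn
    have hr : 0 < v x := by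
      by_contra hr
      exact hxμ (r2 μ (lt_of_le_of_lt (not_lt.1 hr) hμ))
    have hsr : v (x - Finsupp.single 0 1) = v x := by
      rw [sub_eq_add_neg]
      refine v_add_eq hx0 (Or.inr ?_)
      rw [v_neg, v_single _ _ one_ne_zero]
      exact hr
    rw [hsr, sub_self] at hY2
    refine ⟨hY1 ▸ hr, ?_⟩
    rw [← hY2] at y2
    exact (sub_eq_zero.1 y2.symm).symm
  · have hz : ∀ μ : L, 0 < μ → x μ = 0 := by
      intro μ hμ
      by_contra h
      exact hn ⟨μ, hμ, h⟩
    have hz1 : ∀ μ : L, 0 < μ → (x - Finsupp.single 0 1 : L →₀ ℤ) μ = 0 := by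
      intro μ hμ
      simp [hz μ hμ, ne_of_lt hμ]
    have hbx : br (γ0 L) (some x : Pt L) = some (x 0) :=
      br_some_of (fun μ hμ => by rw [hz μ hμ]; rfl)
    by_cases h0 : x 0 = 0
    · -- label `some 0`
      right; right; left
      have hr : v x < 0 := by
        by_contra hr
        rcases eq_or_lt_of_le (not_lt.1 hr) with h | h
        · rw [← h] at r1; exact r1 h0
        · exact r1 (hz _ h)
      have hsv : v (x - Finsupp.single 0 1) = 0 := by
        refine v_eq ?_ hz1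
        simp [h0]
      rw [hsv, sub_zero, hY1] at hY2
      refine ⟨?_, ?_⟩
      · have : Y a d b c = - Y a c b d := by rw [y2, y3]; abel
        rw [this, ← hY2, ← hY1]
        exact neg_pos.2 hr
      · rw [y1, y2] at hY2
        exact sub_right_injective hY2
    · have hr : v x = 0 := v_eq h0 hz
      rw [hr] at hY1 hY2
      by_cases h1 : x 0 = 1
      · -- label `some 1`
        right; left
        have hsv : v (x - Finsupp.single 0 1) < 0 := by
          by_contra hr
          rcases eq_or_lt_of_le (not_lt.1 hr) with h | h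
          · rw [← h] at s1; exact s1 (by simp [h1])
          · exact s1 (hz1 _ h)
        refine ⟨?_, ?_⟩
        · rw [← hY2, zero_sub]
          exact neg_pos.2 hsv
        · rw [← hY1] at y1
          exact (sub_eq_zero.1 y1.symm).symm
      · right; right; right
        have hsv : v (x - Finsupp.single 0 1) = 0 := by
          refine v_eq ?_ hz1
          simpa [sub_eq_zero] using h1
        rw [hsv, sub_zero] at hY2
        rw [← hY1] at y1
        rw [← hY2] at y2
        have e1 := sub_eq_zero.1 y1.symm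
        have e2 := sub_eq_zero.1 y2.symm
        refine ⟨⟨g, hg, γ0 L, ?_⟩, by rw [← e1, e2], e2.symm⟩
        have l1 : br (γ0 L) (g a) = some 0 := by rw [ga]; exact br_o 0
        have l2 : br (γ0 L) (g b) = some 1 := by rw [gb]; exact br_δ 0
        have l3 : br (γ0 L) (g c) = none := by rw [gc]; exact br_none _
        have l4 : br (γ0 L) (g d) = some (x 0) := by rw [hx]; exact hbx
        have h0' : (0 : ℤ) ≠ x 0 := Ne.symm h0
        have h1' : (1 : ℤ) ≠ x 0 := Ne.symm h1
        rintro y (rfl | rfl | rfl | rfl) z (rfl | rfl | rfl | rfl) hyz <;>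
          first
            | rfl
            | (exfalso
               simp only [l1, l2, l3, l4, Option.some.injEq, reduceCtorEq, zero_ne_one,
                 one_ne_zero, h0, h1, h0', h1'] at hyz)

end Pool.Agent.W490.CGStd
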