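import Pool.Agent.W894.HT.Lib

/-!
# Project HT: membership in `#P`
-/

namespace Pool.Agent.W490.HTMem

open Pool.Agent.NPC Pool.Agent.NPC.Cnt Pool.Agent.W894.HT
open Pool.Agent.NPC.H549Convex (ent_poly)

/-- shorthand for the type of lists of rows -/
abbrev LL := List (List Bool)

theorem en_p {α : Type} [TEnc α] {A : α → LL} {x y : α → ℕ} (hA : Poly A) (hx : Poly x)
    (hy : Poly y) : Poly (fun a => en (A a) (x a) (y a)) :=
  ent_poly.comp (f := fun a => (A a, x a, y a)) (Poly.pair hA (Poly.pair hx hy))

theorem all_p {α : Type} [TEnc α] {n : α → ℕ} {f : α → ℕ → Bool} (hn : UPoly n)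
    (hf : Poly (fun p : α × ℕ => f p.1 p.2)) : Poly (fun a => (List.range (n a)).all (f a)) :=
  Poly.all (p := f) hn.range hf

/-! ### Tournaments -/

/-- test for tournaments -/
def tourB (A : LL) : Bool :=
  (A.all fun r => decide (r.length = A.length)) && ((List.range A.length).all fun i =>
    !en A i i && (List.range A.length).all fun j => decide (i = j) || (en A i j ^^ en A j i))

theorem tourB_iff (A : LL) : tourB A = true ↔ IsTour A := by
  unfold tourB IsTour
  rw [Bool.and_eq_true, List.all_eq_true, List.all_eq_true]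
  refine and_congr (by simp) ?_
  constructor
  · intro h i hi
    have h1 := h i (List.mem_range.2 hi)
    rw [Bool.and_eq_true, List.all_eq_true] at h1
    refine ⟨by simpa using h1.1, fun j hj hij => ?_⟩
    have h2 := h1.2 j (List.mem_range.2 hj)
    rw [Bool.or_eq_true, decide_eq_true_eq] at h2
    rcases h2 with h2 | h2
    · exact absurd h2 hij
    · revert h2
      cases en A i j <;> cases en A j i <;> simp
  · intro h i hi
    obtain ⟨h1, h2⟩ := h i (List.mem_range.1 hi)
    rw [Bool.and_eq_true, List.all_eq_true]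
    refine ⟨by simp [h1], fun j hj => ?_⟩
    rw [Bool.or_eq_true, decide_eq_true_eq]
    by_cases hij : i = j
    · exact Or.inl hij
    · right
      rw [h2 j (List.mem_range.1 hj) hij]
      cases en A j i <;> rfl

theorem tourB_poly : Poly tourB := by
  have h1 : Poly (fun A : LL => A.all fun r => decide (r.length = A.length)) :=
    Poly.all (l := fun A : LL => A) (p := fun (A : LL) r => decide (r.length = A.length)) Poly.id
      (Poly.decide_eq (Poly.length (Poly.snd Poly.id)) (Poly.length (Poly.fst Poly.id)))
  have h3 : Poly (fun z : (LL × ℕ) × ℕ =>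
      decide (z.1.2 = z.2) || (en z.1.1 z.1.2 z.2 ^^ en z.1.1 z.2 z.1.2)) := by
    have a1 : Poly (fun z : (LL × ℕ) × ℕ => z.1.1) := Poly.fst (Poly.fst Poly.id)
    have a2 : Poly (fun z : (LL × ℕ) × ℕ => z.1.2) := Poly.snd (Poly.fst Poly.id)
    have a3 : Poly (fun z : (LL × ℕ) × ℕ => z.2) := Poly.snd Poly.id
    exact Poly.or (Poly.decide_eq a2 a3) (Poly.xor (en_p a1 a2 a3) (en_p a1 a3 a2))
  have h2 : Poly (fun z : LL × ℕ => !en z.1 z.2 z.2 && (List.range z.1.length).all fun j =>
      decide (z.2 = j) || (en z.1 z.2 j ^^ en z.1 j z.2)) := by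
    refine Poly.and (Poly.not (en_p (Poly.fst Poly.id) (Poly.snd Poly.id) (Poly.snd Poly.id))) ?_
    exact all_p (n := fun z : LL × ℕ => z.1.length) (f := fun (z : LL × ℕ) j =>
      decide (z.2 = j) || (en z.1 z.2 j ^^ en z.1 j z.2)) (UPoly.length (Poly.fst Poly.id)) h3
  have h4 : Poly (fun A : LL => (List.range A.length).all fun i =>
      !en A i i && (List.range A.length).all fun j => decide (i = j) || (en A i j ^^ en A j i)) :=
    all_p (n := fun A : LL => A.length) (f := fun (A : LL) i =>
      !en A i i && (List.range A.length).all fun j => decide (i = j) || (en A i j ^^ en A j i))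
      (UPoly.length Poly.id) h2
  exact Poly.and h1 h4

/-! ### Permutations -/

/-- test for permutations of the list of indices -/
def permB (c : List ℕ) (A : LL) : Bool :=
  decide (c.length = A.length) && (List.range A.length).all fun i => decide (i ∈ c)

theorem permB_iff (c : List ℕ) (A : LL) : permB c A = true ↔ c.Perm (List.range A.length) := by
  unfold permB
  rw [Bool.and_eq_true, decide_eq_true_eq, List.all_eq_true]
  constructor
  · rintro ⟨h1, h2⟩
    have hsub : List.range A.length ⊆ c := fun i hi => by simpa using h2 i hi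
    have h3 : (List.range A.length).Subperm c := (List.nodup_range).subperm hsub
    exact (h3.perm_of_length_le (by rw [h1, List.length_range])).symm
  · intro h
    refine ⟨by rw [h.length_eq, List.length_range], fun i hi => ?_⟩
    rw [decide_eq_true_eq]
    exact h.mem_iff.2 hi

theorem permB_p {α : Type} [TEnc α] {A : α → LL} {c : α → List ℕ} (hA : Poly A) (hc : Poly c) :
    Poly (fun a => permB (c a) (A a)) := by
  refine Poly.and (Poly.decide_eq (Poly.length hc) (Poly.length hA)) ?_
  exact all_p (n := fun a => (A a).length) (f := fun a i => decide (i ∈ c a)) (UPoly.length hA)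
    (Poly.decide_mem (Poly.snd Poly.id) (hc.comp (Poly.fst Poly.id)))

/-! ### Chains -/

/-- test for chains -/
def chB (A : LL) (c : List ℕ) : Bool := (c.zip c.tail).all fun p => en A p.1 p.2

theorem chB_iff (A : LL) : ∀ c : List ℕ, chB A c = true ↔ c.IsChain fun i j => en A i j = true
  | [] => by simp [chB]
  | [a] => by simp [chB]
  | a :: b :: l => by
    have ih := chB_iff A (b :: l)
    unfold chB at ih ⊢
    simp only [List.tail_cons, List.zip_cons_cons, List.all_cons, Bool.and_eq_true,
      List.isChain_cons_cons] at ih ⊢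
    rw [ih]

theorem chB_p {α : Type} [TEnc α] {A : α → LL} {c : α → List ℕ} (hA : Poly A) (hc : Poly c) :
    Poly (fun a => chB (A a) (c a)) :=
  Poly.all (l := fun a => (c a).zip (c a).tail) (p := fun a (p : ℕ × ℕ) => en (A a) p.1 p.2)
    (Poly.zip hc (Poly.tail hc))
    (en_p (hA.comp (Poly.fst Poly.id)) (Poly.fst (Poly.snd Poly.id)) (Poly.snd (Poly.snd Poly.id)))

/-! ### Sizes of the certificates -/

theorem cert_size {c : List ℕ} {n s : ℕ} (h : c.Perm (List.range n)) (hn : n ≤ s) :
    sz c ≤ (Polynomial.X * (Polynomial.C 4 * Polynomial.X + Polynomial.C 2) +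
      Polynomial.C 1 : Polynomial ℕ).eval s := by
  have h1 : ∀ a ∈ c, sz a ≤ 4 * n + 1 := by
    intro a ha
    have h2 : a < n := List.mem_range.1 (h.mem_iff.1 ha)
    have h3 := sz_nat_le a
    have h4 := Poly.size_le_self a
    omega
  have h2 := sz_le_length_mul c _ h1
  have h3 : c.length = n := by rw [h.length_eq, List.length_range]
  simp only [Polynomial.eval_add, Polynomial.eval_mul, Polynomial.eval_X, Polynomial.eval_C]
  have h4 : c.length * (4 * n + 1 + 1) ≤ s * (4 * s + 2) := by
    rw [h3]
    exact Nat.mul_le_mul hn (by omega)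
  omega

/-! ### The three functions -/

/-- certificates for Hamiltonian paths -/
def relP (A : LL) (c : List ℕ) : Bool := tourB A && (permB c A && chB A c)

/-- certificates for Hamiltonian paths with a given first vertex -/
def relS (x : LL × ℕ) (c : List ℕ) : Bool :=
  (tourB x.1 && decide (x.2 < x.1.length)) &&
    (permB c x.1 && (decide (c.head? = some x.2) && chB x.1 c))

/-- certificates for Hamiltonian cycles -/
def relC (A : LL) (c : List ℕ) : Bool :=
  tourB A && (permB c A && (decide (c.head? = some 0) && chB A (c ++ [0])))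

theorem relP_card (A : LL) : Nat.card {c : List ℕ // relP A c = true} = hpT A := by
  unfold hpT
  by_cases hA : IsTour A
  · rw [if_pos hA]
    unfold numHP
    refine Nat.card_congr (Equiv.subtypeEquivRight fun c => ?_)
    unfold relP
    rw [Bool.and_eq_true, Bool.and_eq_true, tourB_iff, permB_iff, chB_iff]
    exact ⟨fun h => h.2, fun h => ⟨hA, h⟩⟩
  · rw [if_neg hA, Nat.card_eq_zero]
    left
    refine ⟨fun c => hA ?_⟩
    have h := c.2
    unfold relP at h
    rw [Bool.and_eq_true] at h
    exact (tourB_iff A).1 h.1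

theorem relS_card (x : LL × ℕ) : Nat.card {c : List ℕ // relS x c = true} = hsT x := by
  unfold hsT
  by_cases hA : IsTour x.1 ∧ x.2 < x.1.length
  · rw [if_pos hA]
    unfold numHS
    refine Nat.card_congr (Equiv.subtypeEquivRight fun c => ?_)
    unfold relS
    rw [Bool.and_eq_true, Bool.and_eq_true, Bool.and_eq_true, Bool.and_eq_true, tourB_iff,
      permB_iff, chB_iff, decide_eq_true_eq, decide_eq_true_eq]
    exact ⟨fun h => h.2, fun h => ⟨hA, h⟩⟩
  · rw [if_neg hA, Nat.card_eq_zero]
    left
    refine ⟨fun c => hA ?_⟩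
    have h := c.2
    unfold relS at h
    rw [Bool.and_eq_true, Bool.and_eq_true, decide_eq_true_eq] at h
    exact ⟨(tourB_iff x.1).1 h.1.1, h.1.2⟩

theorem relC_card (A : LL) : Nat.card {c : List ℕ // relC A c = true} = hcT A := by
  unfold hcT
  by_cases hA : IsTour A
  · rw [if_pos hA]
    unfold numHC
    refine Nat.card_congr (Equiv.subtypeEquivRight fun c => ?_)
    unfold relC
    rw [Bool.and_eq_true, Bool.and_eq_true, Bool.and_eq_true, tourB_iff, permB_iff, chB_iff,
      decide_eq_true_eq]
    exact ⟨fun h => h.2, fun h => ⟨hA, h⟩⟩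
  · rw [if_neg hA, Nat.card_eq_zero]
    left
    refine ⟨fun c => hA ?_⟩
    have h := c.2
    unfold relC at h
    rw [Bool.and_eq_true] at h
    exact (tourB_iff A).1 h.1

theorem relP_poly : Poly (fun z : LL × List ℕ => relP z.1 z.2) :=
  Poly.and (tourB_poly.comp (Poly.fst Poly.id)) (Poly.and
    (permB_p (A := fun z : LL × List ℕ => z.1) (c := fun z => z.2) (Poly.fst Poly.id)
      (Poly.snd Poly.id))
    (chB_p (A := fun z : LL × List ℕ => z.1) (c := fun z => z.2) (Poly.fst Poly.id)
      (Poly.snd Poly.id)))

theorem relS_poly : Poly (fun z : (LL × ℕ) × List ℕ => relS z.1 z.2) := by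
  have a1 : Poly (fun z : (LL × ℕ) × List ℕ => z.1.1) := Poly.fst (Poly.fst Poly.id)
  have a2 : Poly (fun z : (LL × ℕ) × List ℕ => z.1.2) := Poly.snd (Poly.fst Poly.id)
  have a3 : Poly (fun z : (LL × ℕ) × List ℕ => z.2) := Poly.snd Poly.id
  exact Poly.and (Poly.and (tourB_poly.comp a1) (Poly.decide_lt a2 (Poly.length a1)))
    (Poly.and (permB_p a1 a3) (Poly.and (Poly.decide_eq (Poly.head? a3) (Poly.some a2))
      (chB_p a1 a3)))

theorem relC_poly : Poly (fun z : LL × List ℕ => relC z.1 z.2) := by
  have a1 : Poly (fun z : LL × List ℕ => z.1) := Poly.fst Poly.id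
  have a3 : Poly (fun z : LL × List ℕ => z.2) := Poly.snd Poly.id
  exact Poly.and (tourB_poly.comp a1)
    (Poly.and (permB_p a1 a3) (Poly.and
      (Poly.decide_eq (Poly.head? a3) (Pool.Agent.NPC.Poly.const (some 0)))
      (chB_p a1 (Poly.append a3 (Pool.Agent.NPC.Poly.const [0])))))

/-- **MEM** -/
theorem main : S_MEM := by
  refine ⟨?_, ?_, ?_⟩
  · have h := sharpP_typed relP relP_poly
      (Polynomial.X * (Polynomial.C 4 * Polynomial.X + Polynomial.C 2) + Polynomial.C 1) ?_
    · have e : (fun A : LL => Nat.card {c : List ℕ // relP A c = true}) = hpT := funext relP_card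
      rw [e] at h
      exact h
    · intro A c hc
      unfold relP at hc
      rw [Bool.and_eq_true, Bool.and_eq_true, permB_iff] at hc
      exact cert_size hc.2.1 (length_lt_sz A).le
  · have h := sharpP_typed relS relS_poly
      (Polynomial.X * (Polynomial.C 4 * Polynomial.X + Polynomial.C 2) + Polynomial.C 1) ?_
    · have e : (fun x : LL × ℕ => Nat.card {c : List ℕ // relS x c = true}) = hsT :=
        funext relS_card
      rw [e] at h
      exact h
    · rintro ⟨A, v⟩ c hc
      unfold relS at hc
      rw [Bool.and_eq_true, Bool.and_eq_true (permB _ _), permB_iff] at hc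
      refine cert_size hc.2.1 ?_
      have h1 := length_lt_sz A
      rw [sz_pair]
      simp only
      omega
  · have h := sharpP_typed relC relC_poly
      (Polynomial.X * (Polynomial.C 4 * Polynomial.X + Polynomial.C 2) + Polynomial.C 1) ?_
    · have e : (fun A : LL => Nat.card {c : List ℕ // relC A c = true}) = hcT := funext relC_card
      rw [e] at h
      exact h
    · intro A c hc
      unfold relC at hc
      rw [Bool.and_eq_true, Bool.and_eq_true, permB_iff] at hc
      exact cert_size hc.2.1 (length_lt_sz A).le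

end Pool.Agent.W490.HTMem
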