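import Pool.Agent.W982.TA.Stm

/-!
# Min-max area triangulations: a medial family extends to a triangulation with areas at most 1
-/

set_option autoImplicit false

namespace Pool.Agent.W982.TA

namespace G15R490

/-- the real version of `dt` -/
noncomputable def dr (a b : Pt) (z : ℝ × ℝ) : ℝ :=
  ((b.1 : ℝ) - a.1) * (z.2 - a.2) - ((b.2 : ℝ) - a.2) * (z.1 - a.1)

theorem dr_emb (a b r : Pt) : dr a b (emb r) = (dt a b r : ℝ) := by
  unfold dr dt emb
  push_cast
  ring

theorem emb_inj {p q : Pt} (h : emb p = emb q) : p = q := by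
  unfold emb at h
  rw [Prod.mk.injEq] at h
  exact Prod.ext (by exact_mod_cast h.1) (by exact_mod_cast h.2)

theorem oseg_symm (p q : Pt) : oseg p q = oseg q p := openSegment_symm ℝ _ _

theorem seg_of_dr {a b c : Pt} {z : ℝ × ℝ} (hD : 0 < dt a b c) (h0 : dr a b z = 0)
    (h1 : 0 ≤ dr b c z) (h2 : 0 ≤ dr c a z) : z = emb a ∨ z = emb b ∨ z ∈ oseg a b := by
  have hD' : (0 : ℝ) < dt a b c := by exact_mod_cast hD
  have e0 : (dt a b c : ℝ) = dr a b z + dr b c z + dr c a z := by
    unfold dr dt
    push_cast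
    ring
  have e1 : (dt a b c : ℝ) * z.1 = dr b c z * a.1 + dr c a z * b.1 + dr a b z * c.1 := by
    unfold dr dt
    push_cast
    ring
  have e2 : (dt a b c : ℝ) * z.2 = dr b c z * a.2 + dr c a z * b.2 + dr a b z * c.2 := by
    unfold dr dt
    push_cast
    ring
  rw [h0] at e0 e1 e2
  by_cases k1 : dr b c z = 0
  · right; left
    rw [k1] at e0 e1 e2
    have k : dr c a z = dt a b c := by linarith
    rw [k] at e1 e2
    apply Prod.ext
    · show z.1 = (b.1 : ℝ)
      apply mul_left_cancel₀ hD'.ne'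
      linarith
    · show z.2 = (b.2 : ℝ)
      apply mul_left_cancel₀ hD'.ne'
      linarith
  by_cases k2 : dr c a z = 0
  · left
    rw [k2] at e0 e1 e2
    have k : dr b c z = dt a b c := by linarith
    rw [k] at e1 e2
    apply Prod.ext
    · show z.1 = (a.1 : ℝ)
      apply mul_left_cancel₀ hD'.ne'
      linarith
    · show z.2 = (a.2 : ℝ)
      apply mul_left_cancel₀ hD'.ne'
      linarith
  right; right
  have p1 : 0 < dr b c z := lt_of_le_of_ne h1 (Ne.symm k1)
  have p2 : 0 < dr c a z := lt_of_le_of_ne h2 (Ne.symm k2)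
  refine ⟨dr b c z / dt a b c, dr c a z / dt a b c, div_pos p1 hD', div_pos p2 hD', ?_, ?_⟩
  · rw [← add_div, div_eq_one_iff_eq hD'.ne']
    linarith
  · apply Prod.ext
    · show dr b c z / dt a b c * (a.1 : ℝ) + dr c a z / dt a b c * (b.1 : ℝ) = z.1
      field_simp
      linarith
    · show dr b c z / dt a b c * (a.2 : ℝ) + dr c a z / dt a b c * (b.2 : ℝ) = z.2
      field_simp
      linarith

theorem exit (u w : Fin 3 → ℝ) (hu : ∀ i, 0 < u i) (hw : ∃ i, w i < 0) :
    ∃ i, ∃ t : ℝ, 0 < t ∧ t < 1 ∧ (1 - t) * u i + t * w i = 0 ∧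
      ∀ j, 0 ≤ (1 - t) * u j + t * w j := by
  obtain ⟨i, hi⟩ := Finite.exists_min (fun i => if w i < 0 then u i / (u i - w i) else (1 : ℝ))
  obtain ⟨k, hk⟩ := hw
  have hk1 : u k / (u k - w k) < 1 := by
    rw [div_lt_one (by linarith [hu k])]
    linarith
  have hik := hi k
  rw [if_pos hk] at hik
  have hwi : w i < 0 := by
    by_contra hcon
    rw [if_neg hcon] at hik
    linarith
  rw [if_pos hwi] at hik
  have hpos : 0 < u i - w i := by linarith [hu i]
  refine ⟨i, u i / (u i - w i), div_pos (hu i) hpos, lt_of_le_of_lt hik hk1, ?_, ?_⟩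
  · field_simp
    ring
  · intro j
    have h0 : 0 < u i / (u i - w i) := div_pos (hu i) hpos
    have h1 : u i / (u i - w i) < 1 := lt_of_le_of_lt hik hk1
    by_cases hj : w j < 0
    · have h2 := hi j
      rw [if_pos hwi, if_pos hj, le_div_iff₀ (by linarith [hu j])] at h2
      linarith
    · push Not at hj
      have := mul_nonneg (by linarith : (0 : ℝ) ≤ 1 - u i / (u i - w i)) (hu j).le
      have := mul_nonneg h0.le hj
      linarith

theorem exit3 {u1 u2 u3 w1 w2 w3 : ℝ} (h1 : 0 < u1) (h2 : 0 < u2) (h3 : 0 < u3)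
    (hw : w1 < 0 ∨ w2 < 0 ∨ w3 < 0) : ∃ t : ℝ, 0 < t ∧ t < 1 ∧
      0 ≤ (1 - t) * u1 + t * w1 ∧ 0 ≤ (1 - t) * u2 + t * w2 ∧ 0 ≤ (1 - t) * u3 + t * w3 ∧
      ((1 - t) * u1 + t * w1 = 0 ∨ (1 - t) * u2 + t * w2 = 0 ∨ (1 - t) * u3 + t * w3 = 0) := by
  obtain ⟨i, t, ht0, ht1, hi, hj⟩ := exit ![u1, u2, u3] ![w1, w2, w3] (by
    intro i
    fin_cases i <;> simp [h1, h2, h3]) (by
    rcases hw with h | h | h
    · exact ⟨0, by simpa using h⟩
    · exact ⟨1, by simpa using h⟩
    · exact ⟨2, by simpa using h⟩)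
  refine ⟨t, ht0, ht1, by simpa using hj 0, by simpa using hj 1, by simpa using hj 2, ?_⟩
  fin_cases i
  · left; simpa using hi
  · right; left; simpa using hi
  · right; right; simpa using hi

theorem sum_of_eq {p q a b : Pt} (h : s(p, q) = s(a, b)) : p + q = a + b := by
  rw [Sym2.eq_iff] at h
  rcases h with ⟨rfl, rfl⟩ | ⟨rfl, rfl⟩
  · rfl
  · exact add_comm _ _

theorem mid_sum (r v : Pt) : (r - v) + (r + v) = r + r := by abel

theorem dt_rot (a b c : Pt) : dt b c a = dt a b c := by
  unfold dt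
  ring

theorem dt_self1 (x y : Pt) : dt x y x = 0 := by
  unfold dt
  ring

theorem dt_self2 (x y : Pt) : dt x y y = 0 := by
  unfold dt
  ring

/-- the midpoint of a side is not strictly inside -/
theorem dt_mid {a b r : Pt} (h : r + r = a + b) : dt a b r = 0 := by
  have h1 : r.1 + r.1 = a.1 + b.1 := congrArg Prod.fst h
  have h2 : r.2 + r.2 = a.2 + b.2 := congrArg Prod.snd h
  have h3 : 2 * dt a b r = 0 := by
    unfold dt
    linear_combination (b.1 - a.1) * h2 - (b.2 - a.2) * h1
  omega

theorem inside_aux {S : Finset Pt} {a b c r w : Pt}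
    (haS : a ∈ S) (hbS : b ∈ S) (hcS : c ∈ S) (hD : 0 < dt a b c)
    (hno : ∀ x ∈ S, emb x ∉ oseg (r - w) (r + w))
    (hab : ¬ Disjoint (oseg a b) (oseg (r - w) (r + w)) → s(r - w, r + w) = s(a, b))
    (hbc : ¬ Disjoint (oseg b c) (oseg (r - w) (r + w)) → s(r - w, r + w) = s(b, c))
    (hca : ¬ Disjoint (oseg c a) (oseg (r - w) (r + w)) → s(r - w, r + w) = s(c, a))
    (h1 : 0 < dt a b r) (h2 : 0 < dt b c r) (h3 : 0 < dt c a r) (hout : ¬ InTri a b c (r + w)) :
    False := by
  have hw : (dt a b (r + w) : ℝ) < 0 ∨ (dt b c (r + w) : ℝ) < 0 ∨ (dt c a (r + w) : ℝ) < 0 := by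
    by_contra hcon
    push Not at hcon
    exact hout ⟨by exact_mod_cast hcon.1, by exact_mod_cast hcon.2.1, by exact_mod_cast hcon.2.2⟩
  obtain ⟨t, ht0, ht1, g1, g2, g3, g⟩ := exit3 (u1 := (dt a b r : ℝ)) (u2 := (dt b c r : ℝ))
    (u3 := (dt c a r : ℝ)) (by exact_mod_cast h1) (by exact_mod_cast h2) (by exact_mod_cast h3) hw
  let z : ℝ × ℝ := ((r.1 : ℝ) + t * w.1, (r.2 : ℝ) + t * w.2)
  have hz : ∀ x y : Pt, dr x y z = (1 - t) * (dt x y r : ℝ) + t * (dt x y (r + w) : ℝ) := by
    intro x y
    unfold dr dt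
    simp only [z, Prod.fst_add, Prod.snd_add]
    push_cast
    ring
  have hzseg : z ∈ oseg (r - w) (r + w) := by
    refine ⟨(1 - t) / 2, (1 + t) / 2, by linarith, by linarith, by ring, ?_⟩
    apply Prod.ext
    · show (1 - t) / 2 * ((r - w).1 : ℝ) + (1 + t) / 2 * ((r + w).1 : ℝ) = (r.1 : ℝ) + t * w.1
      simp only [Prod.fst_add, Prod.fst_sub]
      push_cast
      ring
    · show (1 - t) / 2 * ((r - w).2 : ℝ) + (1 + t) / 2 * ((r + w).2 : ℝ) = (r.2 : ℝ) + t * w.2
      simp only [Prod.snd_add, Prod.snd_sub]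
      push_cast
      ring
  rw [← hz] at g1 g2 g3
  rw [← hz, ← hz, ← hz] at g
  have fin : ∀ x y : Pt, x ∈ S → y ∈ S → 0 < dt x y r →
      (¬ Disjoint (oseg x y) (oseg (r - w) (r + w)) → s(r - w, r + w) = s(x, y)) →
      (z = emb x ∨ z = emb y ∨ z ∈ oseg x y) → False := by
    intro x y hx hy hxy hdis hor
    rcases hor with h | h | h
    · rw [h] at hzseg
      exact hno x hx hzseg
    · rw [h] at hzseg
      exact hno y hy hzseg
    · have h4 := hdis (fun hd => Set.disjoint_left.1 hd h hzseg)
      have h5 := sum_of_eq h4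
      rw [mid_sum] at h5
      rw [dt_mid h5] at hxy
      exact lt_irrefl _ hxy
  rcases g with g | g | g
  · exact fin a b haS hbS h1 hab (seg_of_dr hD g g2 g3)
  · exact fin b c hbS hcS h2 hbc (seg_of_dr (by rw [dt_rot]; exact hD) g g3 g1)
  · exact fin c a hcS haS h3 hca (seg_of_dr (by rw [dt_rot, dt_rot]; exact hD) g g1 g2)

/-- the main claim: missing points in a triangle -/
theorem claim {S : Finset Pt} {T : Set (Sym2 Pt)} (hT : IsTriangulation S T)
    (G1 : TaskG1) (G2 : TaskG2) {a b c r v : Pt} (hD : 0 < dt a b c) (htri : IsTri S T a b c)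
    (hv : Int.gcd v.1 v.2 = 1) (hrS : r ∉ S) (hg : s(r - v, r + v) ∈ T) (hr : InTri a b c r) :
    s(r - v, r + v) = s(a, b) ∨ s(r - v, r + v) = s(b, c) ∨ s(r - v, r + v) = s(a, c) := by
  obtain ⟨tab, tbc, tac, -, hver⟩ := htri
  have haS := (hT.seg a b tab).1
  have hbS := (hT.seg a b tab).2.1
  have hcS := (hT.seg b c tbc).2.1
  have hseg := hT.seg _ _ hg
  have hrseg : emb r ∈ oseg (r - v) (r + v) := (G2 r v r hv).2 rfl
  have side : ∀ x y : Pt, s(x, y) ∈ T → ¬ Disjoint (oseg x y) (oseg (r - v) (r + v)) →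
      s(r - v, r + v) = s(x, y) := by
    intro x y hxy hnd
    by_contra hne
    exact hnd (hT.noncross x y _ _ hxy hg (Ne.symm hne))
  have hra : r ≠ a := fun h => hrS (h ▸ haS)
  have hrb : r ≠ b := fun h => hrS (h ▸ hbS)
  have hrc : r ≠ c := fun h => hrS (h ▸ hcS)
  have tca : s(c, a) ∈ T := by rw [Sym2.eq_swap]; exact tac
  have bdry : ∀ x y z : Pt, 0 < dt x y z → s(x, y) ∈ T → r ≠ x → r ≠ y → dt x y r = 0 →
      0 ≤ dt y z r → 0 ≤ dt z x r → s(r - v, r + v) = s(x, y) := by
    intro x y z hD hxy hx hy h0 h1 h2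
    have h := seg_of_dr (z := emb r) hD (by rw [dr_emb, h0]; simp)
      (by rw [dr_emb]; exact_mod_cast h1) (by rw [dr_emb]; exact_mod_cast h2)
    rcases h with h | h | h
    · exact absurd (emb_inj h) hx
    · exact absurd (emb_inj h) hy
    · exact side x y hxy (fun hd => Set.disjoint_left.1 hd h hrseg)
  obtain ⟨r1, r2, r3⟩ := hr
  rcases r1.lt_or_eq with p1 | p1
  · rcases r2.lt_or_eq with p2 | p2
    · rcases r3.lt_or_eq with p3 | p3
      · exfalso
        have hvert : ∀ p ∈ S, InTri a b c p → p = a ∨ p = b ∨ p = c := fun p hp hin =>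
          hver p hp ((G1 a b c p hD).2 hin)
        by_cases o1 : InTri a b c (r + v)
        · by_cases o2 : InTri a b c (r - v)
          · have q1 := hvert _ hseg.2.1 o1
            have q2 := hvert _ hseg.1 o2
            have k : ∀ x y : Pt, dt x y (r - v) + dt x y (r + v) = 2 * dt x y r := by
              intro x y
              unfold dt
              simp only [Prod.fst_add, Prod.snd_add, Prod.fst_sub, Prod.snd_sub]
              ring
            have k1 := k a b
            have k2 := k b c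
            have k3 := k c a
            rcases q1 with q1 | q1 | q1 <;> rcases q2 with q2 | q2 | q2 <;>
              rw [q1, q2] at k1 k2 k3 <;> simp only [dt_self1, dt_self2] at k1 k2 k3 <;> omega
          · have e1 : r - v = r + -v := sub_eq_add_neg _ _
            have e2 : r + v = r - -v := by abel
            have e3 : s(r - v, r + v) = s(r - -v, r + -v) := by
              rw [← e1, ← e2, Sym2.eq_swap]
            have e4 : oseg (r - -v) (r + -v) = oseg (r - v) (r + v) := by
              rw [← e1, ← e2, oseg_symm]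
            refine inside_aux (w := -v) haS hbS hcS hD ?_ ?_ ?_ ?_ p1 p2 p3 (by rw [← e1]; exact o2)
            · rw [e4]
              exact hseg.2.2.2
            · rw [e4, ← e3]
              exact side a b tab
            · rw [e4, ← e3]
              exact side b c tbc
            · rw [e4, ← e3]
              exact side c a tca
        · exact inside_aux haS hbS hcS hD hseg.2.2.2 (side a b tab) (side b c tbc) (side c a tca)
            p1 p2 p3 o1
      · right; right
        rw [bdry c a b (by rw [dt_rot, dt_rot]; exact hD) tca hrc hra p3.symm r1 r2]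
        exact Sym2.eq_swap
    · right; left
      exact bdry b c a (by rw [dt_rot]; exact hD) tbc hrb hrc p2.symm r3 r1
  · left
    exact bdry a b c hD tab hra hrb p1.symm r2 r3

theorem tri_le {X Y : ℤ} {M : Finset Pt} {e : Pt → Pt} (hmed : Medial X Y M e)
    {T : Set (Sym2 Pt)} (hT : IsTriangulation (box X Y \ M) T)
    (hF : ∀ q ∈ M, s(q - e q, q + e q) ∈ T) (G1 : TaskG1) (G2 : TaskG2) (G13 : TaskG13)
    {a b c : Pt} (hD : 0 < dt a b c) (htri : IsTri (box X Y \ M) T a b c) : dt a b c ≤ 2 := by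
  obtain ⟨tab, tbc, tac, -, hver⟩ := id htri
  have haS := (hT.seg a b tab).1
  have hbS := (hT.seg a b tab).2.1
  have hcS := (hT.seg b c tbc).2.1
  have hbox : ∀ p : Pt, p ∈ box X Y \ M → (0 ≤ p.1 ∧ p.1 ≤ X) ∧ (0 ≤ p.2 ∧ p.2 ≤ Y) := by
    intro p hp
    have := (Finset.mem_sdiff.1 hp).1
    unfold box at this
    rw [Finset.mem_product, Finset.mem_Icc, Finset.mem_Icc] at this
    exact this
  have ba := hbox a haS
  have bb := hbox b hbS
  have bc := hbox c hcS
  have star : ∀ r, InTri a b c r → r = a ∨ r = b ∨ r = c ∨ (r ∈ M ∧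
      (s(r - e r, r + e r) = s(a, b) ∨ s(r - e r, r + e r) = s(b, c) ∨
        s(r - e r, r + e r) = s(a, c))) := by
    intro r hr
    by_cases hrM : r ∈ M
    · right; right; right
      refine ⟨hrM, claim hT G1 G2 hD htri (hmed.prim r hrM) ?_ (hF r hrM) hr⟩
      intro h
      exact (Finset.mem_sdiff.1 h).2 hrM
    · have hrS : r ∈ box X Y \ M := by
        rw [Finset.mem_sdiff]
        refine ⟨?_, hrM⟩
        unfold box
        rw [Finset.mem_product, Finset.mem_Icc, Finset.mem_Icc]
        obtain ⟨r1, r2, r3⟩ := hr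
        have e0 : dt a b c = dt a b r + dt b c r + dt c a r := by
          unfold dt
          ring
        have e1 : dt a b c * r.1 = dt b c r * a.1 + dt c a r * b.1 + dt a b r * c.1 := by
          unfold dt
          ring
        have e2 : dt a b c * r.2 = dt b c r * a.2 + dt c a r * b.2 + dt a b r * c.2 := by
          unfold dt
          ring
        have bounds : ∀ x y z w L : ℤ, dt a b c * w = dt b c r * x + dt c a r * y + dt a b r * z →
            0 ≤ x ∧ x ≤ L → 0 ≤ y ∧ y ≤ L → 0 ≤ z ∧ z ≤ L → 0 ≤ w ∧ w ≤ L := by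
          intro x y z w L h hx hy hz
          constructor
          · have h4 : 0 ≤ dt a b c * w := by
              rw [h]
              exact add_nonneg (add_nonneg (mul_nonneg r2 hx.1) (mul_nonneg r3 hy.1))
                (mul_nonneg r1 hz.1)
            exact nonneg_of_mul_nonneg_right h4 hD
          · have h4 : dt a b c * w ≤ dt a b c * L := by
              rw [h]
              have k1 := mul_le_mul_of_nonneg_left hx.2 r2
              have k2 := mul_le_mul_of_nonneg_left hy.2 r3
              have k3 := mul_le_mul_of_nonneg_left hz.2 r1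
              have k4 : dt a b c * L = dt b c r * L + dt c a r * L + dt a b r * L := by
                rw [e0]
                ring
              linarith
            exact le_of_mul_le_mul_left h4 hD
        exact ⟨bounds _ _ _ _ _ e1 ba.1 bb.1 bc.1, bounds _ _ _ _ _ e2 ba.2 bb.2 bc.2⟩
      rcases hver r hrS ((G1 a b c r hD).2 hr) with h | h | h
      · exact Or.inl h
      · exact Or.inr (Or.inl h)
      · exact Or.inr (Or.inr (Or.inl h))
  have hsum : ∀ r x y : Pt, s(r - e r, r + e r) = s(x, y) → r + r = x + y := by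
    intro r x y h
    rw [← mid_sum r (e r)]
    exact sum_of_eq h
  rcases G13 a b c hD (by
    intro r hr
    rcases star r hr with h | h | h | ⟨-, h | h | h⟩
    · exact Or.inl h
    · exact Or.inr (Or.inl h)
    · exact Or.inr (Or.inr (Or.inl h))
    · exact Or.inr (Or.inr (Or.inr (Or.inl (hsum r a b h))))
    · exact Or.inr (Or.inr (Or.inr (Or.inr (Or.inl (hsum r b c h)))))
    · exact Or.inr (Or.inr (Or.inr (Or.inr (Or.inr (hsum r a c h)))))) with h | ⟨h4, ⟨q3, m3⟩, ⟨q1, m1⟩,
      ⟨q2, m2⟩⟩
  · exact h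
  · exfalso
    have hab : a ≠ b := by
      rintro rfl
      unfold dt at hD
      simp at hD
    have hbc : b ≠ c := by
      rintro rfl
      rw [dt_self2] at hD
      exact lt_irrefl _ hD
    have hac : a ≠ c := by
      rintro rfl
      rw [dt_self1] at hD
      exact lt_irrefl _ hD
    -- twice the values at the midpoint
    have half : ∀ x y z r : Pt, r + r = x + y → 2 * dt y z r = dt x y z ∧
        2 * dt z x r = dt x y z := by
      intro x y z r h
      have h1 : r.1 + r.1 = x.1 + y.1 := congrArg Prod.fst h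
      have h2 : r.2 + r.2 = x.2 + y.2 := congrArg Prod.snd h
      constructor
      · unfold dt
        linear_combination (z.1 - y.1) * h2 - (z.2 - y.2) * h1
      · unfold dt
        linear_combination (x.1 - z.1) * h2 - (x.2 - z.2) * h1
    have in3 : InTri a b c q3 := by
      have k := half a b c q3 m3
      exact ⟨(dt_mid m3).ge, by omega, by omega⟩
    have in1 : InTri a b c q1 := by
      obtain ⟨ka, kb⟩ := half b c a q1 m1
      have e : dt b c a = dt a b c := dt_rot a b c
      exact ⟨by omega, (dt_mid m1).ge, by omega⟩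
    have m2' : q2 + q2 = c + a := by rw [m2, add_comm]
    have in2 : InTri a b c q2 := by
      obtain ⟨ka, kb⟩ := half c a b q2 m2'
      have e : dt c a b = dt a b c := (dt_rot b c a).trans (dt_rot a b c)
      exact ⟨by omega, by omega, (dt_mid m2').ge⟩
    have nv : ∀ x y z r : Pt, r + r = x + y → x ≠ y → dt x y z ≠ 0 → r ≠ x ∧ r ≠ y ∧ r ≠ z := by
      intro x y z r h hxy hd
      refine ⟨?_, ?_, ?_⟩
      · rintro rfl
        exact hxy (add_left_cancel h)
      · rintro rfl
        exact hxy (add_right_cancel h).symm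
      · rintro rfl
        exact hd (dt_mid h)
    have f3 := nv a b c q3 m3 hab hD.ne'
    have f1 := nv b c a q1 m1 hbc (by rw [dt_rot]; exact hD.ne')
    have f2 := nv c a b q2 m2' hac.symm (by rw [dt_rot, dt_rot]; exact hD.ne')
    have g3 : q3 ∈ M ∧ s(q3 - e q3, q3 + e q3) = s(a, b) := by
      rcases star q3 in3 with h | h | h | ⟨hM, h | h | h⟩
      · exact absurd h f3.1
      · exact absurd h f3.2.1
      · exact absurd h f3.2.2
      · exact ⟨hM, h⟩
      · have := hsum _ _ _ h
        rw [m3, add_comm a b] at this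
        exact absurd (add_left_cancel this) hac
      · have := hsum _ _ _ h
        rw [m3] at this
        exact absurd (add_left_cancel this) hbc
    have g1 : q1 ∈ M ∧ s(q1 - e q1, q1 + e q1) = s(b, c) := by
      rcases star q1 in1 with h | h | h | ⟨hM, h | h | h⟩
      · exact absurd h f1.2.2
      · exact absurd h f1.1
      · exact absurd h f1.2.1
      · have := hsum _ _ _ h
        rw [m1, add_comm a b] at this
        exact absurd (add_left_cancel this).symm hac
      · exact ⟨hM, h⟩
      · have := hsum _ _ _ h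
        rw [m1] at this
        exact absurd (add_right_cancel this).symm hab
    have g2 : q2 ∈ M ∧ s(q2 - e q2, q2 + e q2) = s(a, c) := by
      rcases star q2 in2 with h | h | h | ⟨hM, h | h | h⟩
      · exact absurd h f2.2.1
      · exact absurd h f2.2.2
      · exact absurd h f2.1
      · have := hsum _ _ _ h
        rw [m2] at this
        exact absurd (add_left_cancel this).symm hbc
      · have := hsum _ _ _ h
        rw [m2] at this
        exact absurd (add_right_cancel this) hab
      · exact ⟨hM, h⟩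
    have := hmed.notri q1 g1.1 q2 g2.1 q3 g3.1 a b c g1.2 g2.2 g3.2
    rw [h4] at this
    exact this (by norm_num)

end G15R490

open G15R490 in
/-- G15: a medial family extends to a triangulation with all areas at most 1 -/
theorem g15 (h1 : TaskG1) (h2 : TaskG2) (_h3 : TaskG3) (h4 : TaskG4) (h5 : TaskG5)
    (h13 : TaskG13) : TaskG15 := by
  intro X Y M e _ _ _ hmed
  have seg0 : ∀ q ∈ M, IsSeg (box X Y \ M) (q - e q) (q + e q) := by
    intro q hq
    refine ⟨hmed.sub_mem q hq, hmed.add_mem q hq, ?_, ?_⟩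
    · intro h
      have hp := hmed.prim q hq
      have h6 : (q - e q).1 = (q + e q).1 := congrArg Prod.fst h
      have h7 : (q - e q).2 = (q + e q).2 := congrArg Prod.snd h
      simp only [Prod.fst_add, Prod.snd_add, Prod.fst_sub, Prod.snd_sub] at h6 h7
      have h8 : (e q).1 = 0 := by omega
      have h9 : (e q).2 = 0 := by omega
      rw [h8, h9] at hp
      simp at hp
    · intro r hr hmem
      rw [h2 q (e q) r (hmed.prim q hq)] at hmem
      rw [hmem] at hr
      exact (Finset.mem_sdiff.1 hr).2 hq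
  have hsymm : ∀ p q, IsSeg (box X Y \ M) p q → IsSeg (box X Y \ M) q p := by
    rintro p q ⟨a1, a2, a3, a4⟩
    exact ⟨a2, a1, a3.symm, fun r hr => by rw [oseg_symm]; exact a4 r hr⟩
  have hos : ∀ p q p' q', s(p, q) = s(p', q') → oseg p q = oseg p' q' := by
    intro p q p' q' h
    rw [Sym2.eq_iff] at h
    rcases h with ⟨rfl, rfl⟩ | ⟨rfl, rfl⟩
    · rfl
    · exact oseg_symm _ _
  obtain ⟨T, hT, hFT⟩ := h5 (box X Y \ M) {x | ∃ q ∈ M, x = s(q - e q, q + e q)} (by
      rintro p r ⟨q, hq, h⟩
      rw [Sym2.eq_iff] at h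
      rcases h with ⟨rfl, rfl⟩ | ⟨rfl, rfl⟩
      · exact seg0 q hq
      · exact hsymm _ _ (seg0 q hq)) (by
      rintro p r p' r' ⟨q, hq, h⟩ ⟨q', hq', h'⟩ hne
      rw [hos _ _ _ _ h, hos _ _ _ _ h']
      rw [h, h'] at hne
      have hqq : q ≠ q' := by
        rintro rfl
        exact hne rfl
      by_contra hnd
      have s1 := seg0 q hq
      have s2 := seg0 q' hq'
      have nm : ∀ x ∈ box X Y \ M, ∀ y ∈ M, emb x ∉ oseg (y - e y) (y + e y) := by
        intro x hx y hy hmem
        rw [h2 y (e y) x (hmed.prim y hy)] at hmem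
        rw [hmem] at hx
        exact (Finset.mem_sdiff.1 hx).2 hy
      exact hmed.disj q hq q' hq' hqq (h4 _ _ _ _ s1.2.2.1 s2.2.2.1 hne
        (nm _ s1.1 q' hq') (nm _ s1.2.1 q' hq') (nm _ s2.1 q hq) (nm _ s2.2.1 q hq) hnd))
  have hF : ∀ q ∈ M, s(q - e q, q + e q) ∈ T := fun q hq => hFT ⟨q, hq, rfl⟩
  refine ⟨T, hT, fun a b c htri => ?_⟩
  have key : |dt a b c| ≤ 2 := by
    rcases lt_or_gt_of_ne htri.2.2.2.1 with h | h
    · have hsw : dt a c b = -dt a b c := by
        unfold dt
        ring
      have htri' : IsTri (box X Y \ M) T a c b := by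
        obtain ⟨t1, t2, t3, t4, t5⟩ := htri
        refine ⟨t3, by rw [Sym2.eq_swap]; exact t2, t1, by rw [hsw]; omega, fun r hr hmem => ?_⟩
        have hset : ({emb a, emb c, emb b} : Set (ℝ × ℝ)) = {emb a, emb b, emb c} := by
          rw [Set.pair_comm]
        rw [hset] at hmem
        rcases t5 r hr hmem with h | h | h
        · exact Or.inl h
        · exact Or.inr (Or.inr h)
        · exact Or.inr (Or.inl h)
      have := tri_le hmed hT hF h1 h2 h13 (by rw [hsw]; omega) htri'
      rw [hsw] at this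
      rw [abs_of_neg h]
      exact this
    · rw [abs_of_pos h]
      exact tri_le hmed hT hF h1 h2 h13 h htri
  have key' : ((|dt a b c| : ℤ) : ℚ) ≤ 2 := by exact_mod_cast key
  linarith

end Pool.Agent.W982.TA
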